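import Pool.Agent.N718.DC.Stm4
import Pool.Agent.N454.DC.PADT

/-!
Project DW (helper718), part PADW (helper650): neighbouring points in the total space at a p-adic
place.
-/

set_option autoImplicit false

namespace Pool.Agent.N650.DW

open Pool.Agent.N718.DC Pool.Agent.N454.DC Finset Polynomial

variable {p : ℕ} [hp : Fact p.Prime]

lemma not_dvd_of_norm {x : ℤ_[p]} {n : ℕ} (h : ((p : ℝ) ^ n)⁻¹ < ‖x‖) :
    ¬ (p : ℤ_[p]) ^ n ∣ x := by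
  rw [dvd_iff]
  exact not_le.2 h

lemma not_dvd_mul {x y : ℤ_[p]} {a b : ℕ} (hx : ¬ (p : ℤ_[p]) ^ a ∣ x)
    (hy : ¬ (p : ℤ_[p]) ^ b ∣ y) : ¬ (p : ℤ_[p]) ^ (a + b) ∣ x * y := by
  apply not_dvd_of_norm
  rw [pow_add, mul_inv, norm_mul]
  exact mul_lt_mul'' (not_dvd_norm hx) (not_dvd_norm hy) (by positivity) (by positivity)

lemma not_dvd_congr {a b : ℤ_[p]} {m n : ℕ} (hmn : n ≤ m) (h : (p : ℤ_[p]) ^ m ∣ a - b)
    (hb : ¬ (p : ℤ_[p]) ^ n ∣ b) : ¬ (p : ℤ_[p]) ^ n ∣ a :=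
  fun h1 => hb ((dvd_sub_right h1).1 ((pow_dvd_pow _ hmn).trans h))

lemma eval_congr (P : ℤ_[p][X]) {s t : ℤ_[p]} {m : ℕ} (h : (p : ℤ_[p]) ^ m ∣ s - t) :
    (p : ℤ_[p]) ^ m ∣ P.eval s - P.eval t := h.trans (sub_dvd_eval_sub _ _ P)

/-- Hensel's lemma with the distance of the root -/
lemma hens (φ : ℤ_[p][X]) (t : ℤ_[p]) (a b : ℕ) (hab : a ≤ b)
    (h1 : (p : ℤ_[p]) ^ (a + b) ∣ φ.eval t) (h2 : ¬ (p : ℤ_[p]) ^ a ∣ (derivative φ).eval t) :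
    ∃ t', φ.eval t' = 0 ∧ (p : ℤ_[p]) ^ b ∣ t' - t := by
  have hp1 : (1 : ℝ) < p := by exact_mod_cast hp.out.one_lt
  have hp0 : (0 : ℝ) < p := by linarith
  have n1 := (dvd_iff _ _).1 h1
  have n2 := not_dvd_norm h2
  have hlt : ‖aeval t φ‖ < ‖aeval t (derivative φ)‖ ^ 2 := by
    rw [Polynomial.coe_aeval_eq_eval]
    refine n1.trans_lt ?_
    calc ((p : ℝ) ^ (a + b))⁻¹ ≤ ((p : ℝ) ^ (a + a))⁻¹ :=
          inv_anti₀ (by positivity) (pow_le_pow_right₀ hp1.le (by omega))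
      _ = (((p : ℝ) ^ a)⁻¹) ^ 2 := by rw [pow_add, mul_inv, pow_two]
      _ < ‖(derivative φ).eval t‖ ^ 2 := pow_lt_pow_left₀ n2 (by positivity) (by norm_num)
  obtain ⟨t', ht', hd, -⟩ := hensels_lemma hlt
  rw [Polynomial.coe_aeval_eq_eval] at ht' hd
  refine ⟨t', ht', ?_⟩
  obtain ⟨h, hh⟩ : ∃ h, h = t' - t := ⟨_, rfl⟩
  rw [← hh] at hd ⊢
  obtain ⟨r, hr⟩ := binomExpansion φ t h
  rw [show t + h = t' by rw [hh]; ring, ht'] at hr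
  have e1 : φ.eval t = -(h * ((derivative φ).eval t + r * h)) := by
    have : φ.eval t = 0 - ((derivative φ).eval t * h + r * h ^ 2) := by rw [hr]; ring
    rw [this]; ring
  have hrh : ‖r * h‖ < ‖(derivative φ).eval t‖ := by
    rw [norm_mul]
    calc ‖r‖ * ‖h‖ ≤ 1 * ‖h‖ := by gcongr; exact PadicInt.norm_le_one r
      _ = ‖h‖ := one_mul _
      _ < _ := hd
  have e2 : ‖(derivative φ).eval t + r * h‖ = ‖(derivative φ).eval t‖ := by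
    rw [IsUltrametricDist.norm_add_eq_max_of_norm_ne_norm hrh.ne']
    exact max_eq_left hrh.le
  have e3 : ‖φ.eval t‖ = ‖h‖ * ‖(derivative φ).eval t‖ := by
    rw [e1, norm_neg, norm_mul, e2]
  rw [dvd_iff]
  have h4 : ‖h‖ * ((p : ℝ) ^ a)⁻¹ ≤ ((p : ℝ) ^ b)⁻¹ * ((p : ℝ) ^ a)⁻¹ := by
    calc ‖h‖ * ((p : ℝ) ^ a)⁻¹ ≤ ‖h‖ * ‖(derivative φ).eval t‖ := by
          gcongr
      _ = ‖φ.eval t‖ := e3.symm
      _ ≤ ((p : ℝ) ^ (a + b))⁻¹ := n1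
      _ = ((p : ℝ) ^ b)⁻¹ * ((p : ℝ) ^ a)⁻¹ := by rw [pow_add, mul_inv, mul_comm]
  exact le_of_mul_le_mul_right h4 (by positivity)

/-- square roots of quotients close to one -/
lemma sq {A B : ℤ_[p]} {j m : ℕ} (hm : 2 ≤ m) (hB : ¬ (p : ℤ_[p]) ^ j ∣ B)
    (hAB : (p : ℤ_[p]) ^ (j + m + 2) ∣ A - B) :
    ∃ s s' : ℤ_[p], s * s' = 1 ∧ A = B * s ^ 2 ∧ (p : ℤ_[p]) ^ m ∣ s - 1 ∧
      (p : ℤ_[p]) ^ m ∣ s' - 1 := by
  have hp1 : (1 : ℝ) < p := by exact_mod_cast hp.out.one_lt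
  obtain ⟨d, hd⟩ : B ∣ (p : ℤ_[p]) ^ j := (ValuationRing.dvd_total B ((p : ℤ_[p]) ^ j)).resolve_right hB
  obtain ⟨c, hc⟩ := hAB
  have hA : A = B * (1 + (p : ℤ_[p]) ^ (m + 2) * (d * c)) := by
    have : A = B + (p : ℤ_[p]) ^ (j + m + 2) * c := by rw [← hc]; ring
    rw [this, show j + m + 2 = j + (m + 2) by ring, pow_add, hd]
    ring
  have h2 : ¬ (p : ℤ_[p]) ^ 2 ∣ (2 : ℤ_[p]) := by
    intro h
    have h3 : (p : ℤ_[p]) ^ 2 ∣ ((2 : ℤ) : ℤ_[p]) := by simpa using h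
    rw [PadicInt.pow_p_dvd_int_iff] at h3
    have h4 : p ^ 2 ∣ 2 := by exact_mod_cast h3
    have h5 := Nat.le_of_dvd (by norm_num) h4
    have h6 : 2 ≤ p := hp.out.two_le
    nlinarith
  obtain ⟨w, hw, hw1⟩ := hens (X ^ 2 - C (1 + (p : ℤ_[p]) ^ (m + 2) * (d * c)) : ℤ_[p][X]) 1 2 m hm
    (by
      have e1 : (X ^ 2 - C (1 + (p : ℤ_[p]) ^ (m + 2) * (d * c)) : ℤ_[p][X]).eval 1 =
        -((p : ℤ_[p]) ^ (m + 2) * (d * c)) := by
        simp only [eval_sub, eval_pow, eval_X, eval_C]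
        ring
      rw [e1, dvd_neg, add_comm 2 m]
      exact Dvd.intro _ rfl)
    (by
      have e1 : (derivative (X ^ 2 - C (1 + (p : ℤ_[p]) ^ (m + 2) * (d * c)) : ℤ_[p][X])).eval 1 =
        2 := by
        simp only [derivative_sub, derivative_X_pow, derivative_C, sub_zero, eval_mul, eval_C,
          eval_pow, eval_X]
        norm_num
      rw [e1]
      exact h2)
  have hw2 : w ^ 2 = 1 + (p : ℤ_[p]) ^ (m + 2) * (d * c) := by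
    simp only [eval_sub, eval_pow, eval_X, eval_C] at hw
    exact sub_eq_zero.1 hw
  have hwu : IsUnit w := by
    rcases IsLocalRing.isUnit_or_isUnit_one_sub_self w with h | h
    · exact h
    · exfalso
      have h3 : (p : ℤ_[p]) ^ m ∣ 1 - w := by
        rw [← dvd_neg, neg_sub]; exact hw1
      have h4 : IsUnit ((p : ℤ_[p]) ^ m) := isUnit_of_dvd_unit h3 h
      exact PadicInt.prime_p.not_isUnit ((isUnit_pow_iff (by omega)).1 h4)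
  obtain ⟨w', hw'⟩ := hwu.exists_right_inv
  refine ⟨w, w', hw', ?_, hw1, ?_⟩
  · rw [hw2]; exact hA
  · have e1 : w' - 1 = -(w' * (w - 1)) := by
      have : w' * (w - 1) = w * w' - w' := by ring
      rw [this, hw']; ring
    rw [e1, dvd_neg]
    exact hw1.mul_left _

/-- the main step: one form has a large valuation -/
lemma core (n : ℕ) (P : Fin 3 → ℤ_[p][X]) (t : ℤ_[p]) (z : Fin 3 → ℤ_[p])
    (h0 : (p : ℤ_[p]) ^ (8 * n + 21) ∣ (P 0).eval t)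
    (h0' : ¬ (p : ℤ_[p]) ^ n ∣ (derivative (P 0)).eval t)
    (h12 : ∀ l, l ≠ 0 → ¬ (p : ℤ_[p]) ^ n ∣ (P l).eval t)
    (hz : ∃ l, ¬ (p : ℤ_[p]) ∣ z l) (hc : ∑ l, (P l).eval t * z l ^ 2 = 0) :
    ∃ (t' : ℤ_[p]) (z' : Fin 3 → ℤ_[p]), (p : ℤ_[p]) ^ (3 * n + 6) ∣ t' - t ∧
      ¬ (p : ℤ_[p]) ^ (8 * n + 21) ∣ (P 0).eval t' ∧ (∀ l, (p : ℤ_[p]) ^ n ∣ z' l - z l) ∧
      ∑ l, (P l).eval t' * z' l ^ 2 = 0 := by
  have hn : 1 ≤ n := by
    by_contra hn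
    have : n = 0 := by omega
    subst this
    exact h0' (by simp)
  have hpne : ∀ k : ℕ, (p : ℤ_[p]) ^ k ≠ 0 := fun k =>
    pow_ne_zero _ (by exact_mod_cast hp.out.ne_zero)
  by_cases hl : ∃ l, l ≠ 0 ∧ ¬ (p : ℤ_[p]) ^ (2 * n + 3) ∣ z l
  · obtain ⟨l, hl0, hl⟩ := hl
    have hA'0 : (derivative (P 0)).eval t ≠ 0 := fun h => h0' (by rw [h]; exact dvd_zero _)
    have eA' := PadicInt.unitCoeff_spec hA'0
    obtain ⟨u', hu'⟩ : ∃ u' : ℤ_[p]ˣ, u' = PadicInt.unitCoeff hA'0 := ⟨_, rfl⟩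
    obtain ⟨v, hv⟩ : ∃ v : ℕ, v = ((derivative (P 0)).eval t).valuation := ⟨_, rfl⟩
    rw [← hu', ← hv] at eA'
    have hv1 : v < n := by
      by_contra hvn
      apply h0'
      rw [eA']
      exact Dvd.dvd.mul_left (pow_dvd_pow _ (by omega)) _
    obtain ⟨m, hm⟩ : ∃ m, v + m = 8 * n + 15 := ⟨8 * n + 15 - v, by omega⟩
    obtain ⟨r, hr⟩ := binomExpansion (P 0) t ((p : ℤ_[p]) ^ m)
    obtain ⟨t', ht'⟩ : ∃ t', t' = t + (p : ℤ_[p]) ^ m := ⟨_, rfl⟩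
    rw [← ht'] at hr
    have htm : (p : ℤ_[p]) ^ m ∣ t' - t := by
      rw [ht', add_sub_cancel_left]
    have hA : ¬ (p : ℤ_[p]) ^ (8 * n + 21) ∣ (P 0).eval t' := by
      intro h1
      have h2 : (p : ℤ_[p]) ^ (8 * n + 15 + 1) ∣ (p : ℤ_[p]) ^ (8 * n + 15) * (u' : ℤ_[p]) := by
        have e1 : (p : ℤ_[p]) ^ (8 * n + 15) * (u' : ℤ_[p]) =
            (P 0).eval t' - (P 0).eval t - r * (p : ℤ_[p]) ^ (m * 2) := by
          rw [hr, eA', ← hm, pow_add, pow_mul]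
          ring
        rw [e1]
        refine dvd_sub (dvd_sub ((pow_dvd_pow _ (by omega)).trans h1)
          ((pow_dvd_pow _ (by omega)).trans h0)) ?_
        exact (pow_dvd_pow _ (by omega)).mul_left _
      rw [pow_succ] at h2
      have h3 := (mul_dvd_mul_iff_left (hpne _)).1 h2
      exact PadicInt.prime_p.not_isUnit (isUnit_of_dvd_unit h3 u'.isUnit)
    have hd : ∀ j, (p : ℤ_[p]) ^ (7 * n + 16) ∣ (P j).eval t' - (P j).eval t := fun j =>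
      eval_congr (P j) ((pow_dvd_pow _ (by omega)).trans htm)
    obtain ⟨S, hS⟩ : ∃ S, S = ∑ j, (P j).eval t' * z j ^ 2 := ⟨_, rfl⟩
    have hSd : (p : ℤ_[p]) ^ (7 * n + 16) ∣ S := by
      have : S = ∑ j, ((P j).eval t' - (P j).eval t) * z j ^ 2 := by
        simp only [sub_mul, Finset.sum_sub_distrib]
        rw [hc, sub_zero, hS]
      rw [this]
      exact Finset.dvd_sum fun j _ => (hd j).mul_right _
    have hB : ¬ (p : ℤ_[p]) ^ (n + ((2 * n + 3) + (2 * n + 3))) ∣ (P l).eval t' * z l ^ 2 := by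
      rw [pow_two]
      exact not_dvd_mul (not_dvd_congr (by omega) (hd l) (h12 l hl0)) (not_dvd_mul hl hl)
    obtain ⟨s, s', -, hs1, hs2, -⟩ := sq (A := (P l).eval t' * z l ^ 2 - S) (m := 2 * n + 8)
      (by omega) hB (by
        rw [sub_sub_cancel_left, dvd_neg]
        exact (pow_dvd_pow _ (by omega)).trans hSd)
    refine ⟨t', Function.update z l (z l * s), (pow_dvd_pow _ (by omega)).trans htm, hA, ?_, ?_⟩
    · intro j
      by_cases hj : j = l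
      · subst hj
        rw [Function.update_self, show z j * s - z j = z j * (s - 1) by ring]
        exact ((pow_dvd_pow _ (by omega)).trans hs2).mul_left _
      · rw [Function.update_of_ne hj, sub_self]
        exact dvd_zero _
    · have e1 := Finset.add_sum_erase univ
        (fun j => (P j).eval t' * (Function.update z l (z l * s)) j ^ 2) (mem_univ l)
      have e2 := Finset.add_sum_erase univ (fun j => (P j).eval t' * z j ^ 2) (mem_univ l)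
      have e3 : ∑ j ∈ univ.erase l, (P j).eval t' * (Function.update z l (z l * s)) j ^ 2 =
          ∑ j ∈ univ.erase l, (P j).eval t' * z j ^ 2 := by
        refine Finset.sum_congr rfl fun j hj => ?_
        rw [Function.update_of_ne (Finset.ne_of_mem_erase hj)]
      rw [← e1, e3]
      simp only [Function.update_self]
      rw [← hS] at e2
      have e4 : ∑ j ∈ univ.erase l, (P j).eval t' * z j ^ 2 = S - (P l).eval t' * z l ^ 2 := by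
        rw [← e2]; ring
      rw [e4, mul_pow, ← mul_assoc, ← hs1]
      ring
  · push Not at hl
    have hz0 : ¬ (p : ℤ_[p]) ∣ z 0 := by
      obtain ⟨l, hl'⟩ := hz
      by_cases h : l = 0
      · rw [← h]; exact hl'
      · exact absurd ((dvd_pow_self _ (by omega)).trans (hl l h)) hl'
    have hzu : IsUnit (z 0) := by
      rw [PadicInt.isUnit_iff]
      by_contra hne
      exact hz0 (PadicInt.norm_lt_one_iff_dvd _ |>.1
        (lt_of_le_of_ne (PadicInt.norm_le_one _) hne))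
    obtain ⟨t', ht', htt⟩ := hens (P 0 * C (z 0 ^ 2) + P 2 * C ((p : ℤ_[p]) ^ (4 * n + 6))) t n
      (3 * n + 6) (by omega)
      (by
        simp only [eval_add, eval_mul, eval_C]
        rw [show n + (3 * n + 6) = 4 * n + 6 by ring]
        exact dvd_add (((pow_dvd_pow _ (by omega)).trans h0).mul_right _) (Dvd.intro_left _ rfl))
      (by
        simp only [derivative_add, derivative_mul, derivative_C, mul_zero, add_zero, eval_add,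
          eval_mul, eval_C]
        intro h
        have h3 : (p : ℤ_[p]) ^ n ∣ (derivative (P 2)).eval t * (p : ℤ_[p]) ^ (4 * n + 6) :=
          (pow_dvd_pow _ (by omega)).mul_left _
        have h4 := (dvd_add_left h3).1 h
        exact h0' ((IsUnit.dvd_mul_right (hzu.pow 2)).1 h4))
    simp only [eval_add, eval_mul, eval_C] at ht'
    have h2 : ¬ (p : ℤ_[p]) ^ n ∣ (P 2).eval t' :=
      not_dvd_congr (by omega) (eval_congr (P 2) htt) (h12 2 (by decide))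
    refine ⟨t', ![z 0, 0, (p : ℤ_[p]) ^ (2 * n + 3)], htt, ?_, ?_, ?_⟩
    · intro h
      apply h2
      have h3 : (p : ℤ_[p]) ^ (8 * n + 21) ∣ (P 2).eval t' * (p : ℤ_[p]) ^ (4 * n + 6) := by
        have := h.mul_right (z 0 ^ 2)
        exact (dvd_add_right this).1 (by rw [ht']; exact dvd_zero _)
      rw [show 8 * n + 21 = (4 * n + 15) + (4 * n + 6) by ring, pow_add] at h3
      exact (pow_dvd_pow _ (by omega)).trans ((mul_dvd_mul_iff_right (hpne _)).1 h3)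
    · intro l
      fin_cases l
      · simp
      · simp only [Fin.mk_one, Matrix.cons_val_one, Matrix.cons_val_zero, zero_sub, dvd_neg]
        exact (pow_dvd_pow _ (by omega)).trans (hl 1 (by decide))
      · exact dvd_sub (pow_dvd_pow _ (by omega))
          ((pow_dvd_pow _ (by omega)).trans (hl 2 (by decide)))
    · rw [Fin.sum_univ_three]
      simp only [Matrix.cons_val_zero, Matrix.cons_val_one, Matrix.cons_val]
      linear_combination ht'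

/-- the main step for an arbitrary position of the form with a large valuation -/
lemma corep (n : ℕ) (P : Fin 3 → ℤ_[p][X]) (t : ℤ_[p]) (z : Fin 3 → ℤ_[p]) (l₀ : Fin 3)
    (h0 : (p : ℤ_[p]) ^ (8 * n + 21) ∣ (P l₀).eval t)
    (h0' : ¬ (p : ℤ_[p]) ^ n ∣ (derivative (P l₀)).eval t)
    (h12 : ∀ l, l ≠ l₀ → ¬ (p : ℤ_[p]) ^ n ∣ (P l).eval t)
    (hz : ∃ l, ¬ (p : ℤ_[p]) ∣ z l) (hc : ∑ l, (P l).eval t * z l ^ 2 = 0) :
    ∃ (t' : ℤ_[p]) (z' : Fin 3 → ℤ_[p]), (p : ℤ_[p]) ^ (3 * n + 6) ∣ t' - t ∧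
      ¬ (p : ℤ_[p]) ^ (8 * n + 21) ∣ (P l₀).eval t' ∧ (∀ l, (p : ℤ_[p]) ^ n ∣ z' l - z l) ∧
      ∑ l, (P l).eval t' * z' l ^ 2 = 0 := by
  obtain ⟨σ, hσ0, hσσ⟩ : ∃ σ : Equiv.Perm (Fin 3), σ 0 = l₀ ∧ ∀ l, σ (σ l) = l :=
    ⟨Equiv.swap 0 l₀, Equiv.swap_apply_left _ _, fun l => Equiv.swap_apply_self _ _ l⟩
  obtain ⟨t', z', h1, h2, h3, h4⟩ := core n (fun l => P (σ l)) t (fun l => z (σ l))
    (by rw [hσ0]; exact h0) (by rw [hσ0]; exact h0')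
    (fun l hl => h12 (σ l) (fun h => hl (σ.injective (by rw [h, hσ0]))))
    (by
      obtain ⟨l, hl⟩ := hz
      exact ⟨σ l, by rw [hσσ]; exact hl⟩)
    (by rw [← hc]; exact Equiv.sum_comp σ (fun l => (P l).eval t * z l ^ 2))
  refine ⟨t', fun l => z' (σ l), h1, by rw [← hσ0]; exact h2, ?_, ?_⟩
  · intro l
    have := h3 (σ l)
    rwa [hσσ] at this
  · rw [← h4, ← Equiv.sum_comp σ (fun l => (P l).eval t' * z' (σ l) ^ 2)]
    refine Finset.sum_congr rfl fun l _ => ?_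
    rw [hσσ]

/-- moving the point: all bundles -/
lemma claimW {r : ℕ} (n : ℕ) (G : Fin r × Fin 3 → ℤ_[p][X]) (t : ℤ_[p])
    (h1 : ∀ k k', k ≠ k' → ¬ ((p : ℤ_[p]) ^ n ∣ (G k).eval t ∧ (p : ℤ_[p]) ^ n ∣ (G k').eval t))
    (h2 : ∀ k, ¬ ((p : ℤ_[p]) ^ n ∣ (G k).eval t ∧ (p : ℤ_[p]) ^ n ∣ (derivative (G k)).eval t))
    (z : Fin r → Fin 3 → ℤ_[p]) (hz : ∀ i, ∃ l, ¬ (p : ℤ_[p]) ∣ z i l)
    (hc : ∀ i, ∑ l, (G (i, l)).eval t * z i l ^ 2 = 0) :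
    ∃ (t' : ℤ_[p]) (z' : Fin r → Fin 3 → ℤ_[p]), (p : ℤ_[p]) ^ n ∣ t' - t ∧
      (∀ k, ¬ (p : ℤ_[p]) ^ (8 * n + 21) ∣ (G k).eval t') ∧
      (∀ i l, (p : ℤ_[p]) ^ n ∣ z' i l - z i l) ∧
      ∀ i, ∑ l, (G (i, l)).eval t' * z' i l ^ 2 = 0 := by
  by_cases hall : ∀ k, ¬ (p : ℤ_[p]) ^ (8 * n + 21) ∣ (G k).eval t
  · exact ⟨t, z, by rw [sub_self]; exact dvd_zero _, hall, fun i l => by rw [sub_self]; exact dvd_zero _,
      hc⟩
  push Not at hall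
  obtain ⟨⟨i₀, l₀⟩, ha⟩ := hall
  have ha' : (p : ℤ_[p]) ^ n ∣ (G (i₀, l₀)).eval t := (pow_dvd_pow _ (by omega)).trans ha
  have hb : ∀ k, k ≠ (i₀, l₀) → ¬ (p : ℤ_[p]) ^ n ∣ (G k).eval t :=
    fun k hk h => h1 k (i₀, l₀) hk ⟨h, ha'⟩
  obtain ⟨t', y, ht, hA, hy, hy'⟩ := corep n (fun l => G (i₀, l)) t (z i₀) l₀ ha
    (fun h => h2 (i₀, l₀) ⟨ha', h⟩) (fun l hl => hb (i₀, l) (fun h => hl (congrArg Prod.snd h)))
    (hz i₀) (hc i₀)
  have hS : ∀ k, k ≠ (i₀, l₀) → ∃ s s' : ℤ_[p], s * s' = 1 ∧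
      (G k).eval t' = (G k).eval t * s ^ 2 ∧ (p : ℤ_[p]) ^ (2 * n + 4) ∣ s - 1 ∧
      (p : ℤ_[p]) ^ (2 * n + 4) ∣ s' - 1 := by
    intro k hk
    refine sq (by omega) (hb k hk) ?_
    rw [show n + (2 * n + 4) + 2 = 3 * n + 6 by ring]
    exact eval_congr (G k) ht
  have hS' : ∀ k, ∃ s s' : ℤ_[p], k ≠ (i₀, l₀) → (s * s' = 1 ∧
      (G k).eval t' = (G k).eval t * s ^ 2 ∧ (p : ℤ_[p]) ^ (2 * n + 4) ∣ s - 1 ∧
      (p : ℤ_[p]) ^ (2 * n + 4) ∣ s' - 1) := by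
    intro k
    by_cases hk : k = (i₀, l₀)
    · exact ⟨0, 0, fun h => absurd hk h⟩
    · obtain ⟨s, s', h⟩ := hS k hk
      exact ⟨s, s', fun _ => h⟩
  choose s s' hs using hS'
  refine ⟨t', fun i => if i = i₀ then y else fun l => z i l * s' (i, l),
    (pow_dvd_pow _ (by omega)).trans ht, ?_, ?_, ?_⟩
  · intro k
    by_cases hk : k = (i₀, l₀)
    · rw [hk]; exact hA
    · exact fun h => not_dvd_congr (by omega) (eval_congr (G k) ht) (hb k hk)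
        ((pow_dvd_pow _ (by omega)).trans h)
  · intro i l
    by_cases hi : i = i₀
    · simp only [if_pos hi]
      rw [hi]
      exact hy l
    · simp only [if_neg hi]
      rw [show z i l * s' (i, l) - z i l = z i l * (s' (i, l) - 1) by ring]
      exact ((pow_dvd_pow _ (by omega)).trans
        (hs (i, l) (fun h => hi (congrArg Prod.fst h))).2.2.2).mul_left _
  · intro i
    by_cases hi : i = i₀
    · simp only [if_pos hi]
      rw [hi]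
      exact hy'
    · simp only [if_neg hi]
      rw [← hc i]
      refine Finset.sum_congr rfl fun l _ => ?_
      obtain ⟨e1, e2, -, -⟩ := hs (i, l) (fun h => hi (congrArg Prod.fst h))
      rw [e2]
      calc (G (i, l)).eval t * s (i, l) ^ 2 * (z i l * s' (i, l)) ^ 2 =
          (G (i, l)).eval t * z i l ^ 2 * (s (i, l) * s' (i, l)) ^ 2 := by ring
        _ = (G (i, l)).eval t * z i l ^ 2 := by rw [e1]; ring

/-- the signs -/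
def sg : Fin 3 → ℤ := ![1, 1, -1]

lemma sum_sg {R : Type} [CommRing R] (A z : Fin 3 → R) :
    ∑ l, ((sg l : ℤ) : R) * A l * z l ^ 2 = A 0 * z 0 ^ 2 + A 1 * z 1 ^ 2 - A 2 * z 2 ^ 2 := by
  rw [Fin.sum_univ_three]
  simp only [sg, Matrix.cons_val_zero, Matrix.cons_val_one, Matrix.cons_val]
  push_cast
  ring

lemma sg_unit {R : Type} [CommRing R] (l : Fin 3) : IsUnit ((sg l : ℤ) : R) := by
  fin_cases l <;> simp [sg]

lemma fincast (A : Fin 3 → ℤ) (ζ : Fin 3 → ℤ_[p])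
    (h : (A 0 : ℤ_[p]) * ζ 0 ^ 2 + (A 1 : ℤ_[p]) * ζ 1 ^ 2 = (A 2 : ℤ_[p]) * ζ 2 ^ 2) :
    (A 0 : ℚ_[p]) * (ζ 0 : ℚ_[p]) ^ 2 + (A 1 : ℚ_[p]) * (ζ 1 : ℚ_[p]) ^ 2 =
      (A 2 : ℚ_[p]) * (ζ 2 : ℚ_[p]) ^ 2 := by
  have h4 := congrArg (PadicInt.Coe.ringHom (p := p)) h
  simp only [map_add, map_mul, map_pow, map_intCast] at h4
  exact h4

lemma case1 {r : ℕ} {e : Fin r × Fin 3 → ℕ} (N n : ℕ) (hN : N ≤ n)
    (c : (k : Fin r × Fin 3) → Fin (e k + 2) → ℤ) (hdeg : ¬ degen p n c) (x y : ℚ_[p])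
    (hx : ‖x‖ = 1) (hy : ‖y‖ ≤ 1) (z : Fin r → Fin 3 → ℚ_[p]) (hz : ∀ i, ‖z i‖ = 1)
    (h0 : ∀ i, fmv (c (i, 0)) x y * z i 0 ^ 2 + fmv (c (i, 1)) x y * z i 1 ^ 2 =
      fmv (c (i, 2)) x y * z i 2 ^ 2) :
    ∃ a₀ a₁ : ℤ, ‖x - (a₀ : ℚ_[p])‖ ≤ (((p : ℝ) ^ N))⁻¹ ∧ ‖y - (a₁ : ℚ_[p])‖ ≤ (((p : ℝ) ^ N))⁻¹ ∧
      (∀ k, ¬ ((p : ℤ) ^ (8 * n + 24) ∣ fm (c k) a₀ a₁)) ∧
      ∃ z' : Fin r → Fin 3 → ℚ_[p], (∀ i j, ‖z i j - z' i j‖ ≤ (((p : ℝ) ^ N))⁻¹) ∧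
        (∀ i, z' i ≠ 0) ∧ ∀ i, ((fm (c (i, 0)) a₀ a₁ : ℤ) : ℚ_[p]) * z' i 0 ^ 2 +
          ((fm (c (i, 1)) a₀ a₁ : ℤ) : ℚ_[p]) * z' i 1 ^ 2 =
            ((fm (c (i, 2)) a₀ a₁ : ℤ) : ℚ_[p]) * z' i 2 ^ 2 := by
  obtain ⟨x', rfl⟩ : ∃ x' : ℤ_[p], (x' : ℚ_[p]) = x := ⟨⟨x, hx.le⟩, rfl⟩
  obtain ⟨y', rfl⟩ : ∃ y' : ℤ_[p], (y' : ℚ_[p]) = y := ⟨⟨y, hy⟩, rfl⟩
  have hxu : IsUnit x' := by rw [PadicInt.isUnit_iff, PadicInt.norm_def]; exact hx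
  obtain ⟨t, rfl⟩ : ∃ t, y' = x' * t := hxu.dvd
  have hzl : ∀ i l, ∃ w : ℤ_[p], (w : ℚ_[p]) = z i l := fun i l =>
    ⟨⟨z i l, (norm_le_pi_norm (z i) l).trans (hz i).le⟩, rfl⟩
  choose Z hZ using hzl
  have cast : ∀ (k : Fin r × Fin 3) (s s' : ℤ_[p]), fmv (c k) (s : ℚ_[p]) (s' : ℚ_[p]) =
      ((fmv (c k) s s' : ℤ_[p]) : ℚ_[p]) := fun k s s' =>
    (fmv_map (PadicInt.Coe.ringHom (p := p)) (c k) s s').symm
  obtain ⟨G, hG⟩ : ∃ G : Fin r × Fin 3 → ℤ_[p][X],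
      G = fun k => C (((sg k.2 : ℤ) : ℤ_[p]) * x' ^ (e k + 1)) * F p (c k) := ⟨_, rfl⟩
  have hU : ∀ k : Fin r × Fin 3, IsUnit (((sg k.2 : ℤ) : ℤ_[p]) * x' ^ (e k + 1)) :=
    fun k => (sg_unit k.2).mul (hxu.pow _)
  have hGe : ∀ k s, (G k).eval s = (((sg k.2 : ℤ) : ℤ_[p]) * x' ^ (e k + 1)) * (F p (c k)).eval s := by
    intro k s
    rw [hG]
    simp only [eval_mul, eval_C]
  have hGf : ∀ k s, (G k).eval s = ((sg k.2 : ℤ) : ℤ_[p]) * fmv (c k) x' (x' * s) := by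
    intro k s
    rw [hGe, fmv_mul, mul_assoc]
    rfl
  have hGd : ∀ k s, (derivative (G k)).eval s =
      (((sg k.2 : ℤ) : ℤ_[p]) * x' ^ (e k + 1)) * (derivative (F p (c k))).eval s := by
    intro k s
    rw [hG]
    simp only [derivative_mul, derivative_C, zero_mul, zero_add, eval_mul, eval_C]
  -- the integer near t
  obtain ⟨t₀, ht₀⟩ : ∃ t₀ : ℤ, (p : ℤ_[p]) ^ n ∣ t - (t₀ : ℤ_[p]) := by
    refine ⟨(PadicInt.appr t n : ℤ), ?_⟩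
    rw [← Ideal.mem_span_singleton]
    have := PadicInt.appr_spec n t
    simpa using this
  have tr : ∀ (P : ℤ_[p][X]), (p : ℤ_[p]) ^ n ∣ P.eval t → (p : ℤ_[p]) ^ n ∣ P.eval (t₀ : ℤ_[p]) := by
    intro P h
    exact (dvd_sub_right h).1 (eval_congr P ht₀)
  have hk1 : ∀ k, (p : ℤ_[p]) ^ n ∣ (G k).eval t → (p : ℤ) ^ n ∣ fm (c k) 1 t₀ := by
    intro k h
    rw [hGe] at h
    have h2 := tr _ ((IsUnit.dvd_mul_left (hU k)).1 h)
    rw [F_int, PadicInt.pow_p_dvd_int_iff] at h2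
    exact h2
  have hk2 : ∀ k, (p : ℤ_[p]) ^ n ∣ (derivative (G k)).eval t → (p : ℤ) ^ n ∣ dm (c k) t₀ := by
    intro k h
    rw [hGd] at h
    have h2 := tr _ ((IsUnit.dvd_mul_left (hU k)).1 h)
    rw [F_int', PadicInt.pow_p_dvd_int_iff] at h2
    exact h2
  have hZp : ∀ i, ∃ l, ¬ (p : ℤ_[p]) ∣ Z i l := by
    intro i
    by_contra hcon
    push Not at hcon
    have h1 : ‖z i‖ < 1 := by
      rw [pi_norm_lt_iff one_pos]
      intro l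
      rw [← hZ, ← PadicInt.norm_def]
      exact (PadicInt.norm_lt_one_iff_dvd _).2 (hcon l)
    rw [hz i] at h1
    exact lt_irrefl _ h1
  have hcZ : ∀ i, ∑ l, (G (i, l)).eval t * Z i l ^ 2 = 0 := by
    intro i
    have h1 := sum_sg (fun l => fmv (c (i, l)) x' (x' * t)) (Z i)
    have h2 : ∑ l, (G (i, l)).eval t * Z i l ^ 2 =
        ∑ l, ((sg l : ℤ) : ℤ_[p]) * fmv (c (i, l)) x' (x' * t) * Z i l ^ 2 :=
      Finset.sum_congr rfl fun l _ => by rw [hGf]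
    rw [h2, h1, sub_eq_zero]
    have h3 := h0 i
    rw [cast, cast, cast, ← hZ, ← hZ, ← hZ] at h3
    refine PadicInt.ext ?_
    push_cast
    exact h3
  obtain ⟨t', z', ht', hA, hz', hc'⟩ := claimW n G t
    (fun k k' hkk h => hdeg ⟨t₀, Or.inl ⟨k, k', hkk, hk1 k h.1, hk1 k' h.2⟩⟩)
    (fun k h => hdeg ⟨t₀, Or.inr ⟨k, hk1 k h.1, hk2 k h.2⟩⟩) Z hZp hcZ
  have appr : ∀ s : ℤ_[p], ∃ a : ℤ, (p : ℤ_[p]) ^ (20 * n + 60) ∣ s - (a : ℤ_[p]) := by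
    intro s
    refine ⟨(PadicInt.appr s (20 * n + 60) : ℤ), ?_⟩
    rw [← Ideal.mem_span_singleton]
    have := PadicInt.appr_spec (20 * n + 60) s
    simpa using this
  obtain ⟨a₀, ha₀⟩ := appr x'
  obtain ⟨a₁, ha₁⟩ := appr (x' * t')
  have cvt : ∀ s s' : ℤ_[p], (p : ℤ_[p]) ^ N ∣ s - s' →
      ‖(s : ℚ_[p]) - (s' : ℚ_[p])‖ ≤ (((p : ℝ) ^ N))⁻¹ := by
    intro s a h1
    rw [dvd_iff, PadicInt.norm_def, PadicInt.coe_sub] at h1
    exact h1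
  have cvti : ∀ (s : ℤ_[p]) (a : ℤ), (p : ℤ_[p]) ^ N ∣ s - (a : ℤ_[p]) →
      ‖(s : ℚ_[p]) - (a : ℚ_[p])‖ ≤ (((p : ℝ) ^ N))⁻¹ := by
    intro s a h1
    have := cvt s a h1
    simpa using this
  have hdif : ∀ k, (p : ℤ_[p]) ^ (20 * n + 60) ∣
      ((sg k.2 : ℤ) : ℤ_[p]) * ((fm (c k) a₀ a₁ : ℤ) : ℤ_[p]) - (G k).eval t' := by
    intro k
    have h1 : (p : ℤ_[p]) ^ (20 * n + 60) ∣
        fmv (c k) x' (x' * t') - ((fm (c k) a₀ a₁ : ℤ) : ℤ_[p]) := by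
      rw [← fmv_cast]
      exact fmv_congr (c k) ha₀ ha₁
    rw [hGf, ← mul_sub]
    refine Dvd.dvd.mul_left ?_ _
    rw [← dvd_neg, neg_sub]
    exact h1
  have hS : ∀ k, ∃ s s' : ℤ_[p], s * s' = 1 ∧
      ((sg k.2 : ℤ) : ℤ_[p]) * ((fm (c k) a₀ a₁ : ℤ) : ℤ_[p]) = (G k).eval t' * s ^ 2 ∧
      (p : ℤ_[p]) ^ (n + 2) ∣ s - 1 ∧ (p : ℤ_[p]) ^ (n + 2) ∣ s' - 1 :=
    fun k => sq (by omega) (hA k) ((pow_dvd_pow _ (by omega)).trans (hdif k))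
  choose s s' hss hs1 hs2 hs3 using hS
  have hclose : ∀ i l, (p : ℤ_[p]) ^ n ∣ Z i l - z' i l * s' (i, l) := by
    intro i l
    have e1 : Z i l - z' i l * s' (i, l) = -(z' i l - Z i l) - z' i l * (s' (i, l) - 1) := by ring
    rw [e1]
    exact dvd_sub ((dvd_neg).2 (hz' i l)) (((pow_dvd_pow _ (by omega)).trans (hs3 (i, l))).mul_left _)
  refine ⟨a₀, a₁, cvti _ _ ((pow_dvd_pow _ (by omega)).trans ha₀), ?_, ?_,
    fun i l => ((z' i l * s' (i, l) : ℤ_[p]) : ℚ_[p]), ?_, ?_, ?_⟩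
  · refine cvti _ _ ?_
    have e1 : x' * t - (a₁ : ℤ_[p]) = (x' * t' - a₁) - x' * (t' - t) := by ring
    rw [e1]
    exact dvd_sub ((pow_dvd_pow _ (by omega)).trans ha₁)
      (((pow_dvd_pow _ hN).trans ht').mul_left _)
  · intro k h1
    apply hA k
    have h2 : (p : ℤ_[p]) ^ (8 * n + 24) ∣ ((fm (c k) a₀ a₁ : ℤ) : ℤ_[p]) := by
      rw [PadicInt.pow_p_dvd_int_iff]
      exact h1
    have h3 : (p : ℤ_[p]) ^ (8 * n + 21) ∣
        ((sg k.2 : ℤ) : ℤ_[p]) * ((fm (c k) a₀ a₁ : ℤ) : ℤ_[p]) :=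
      ((pow_dvd_pow _ (by omega)).trans h2).mul_left _
    exact (dvd_sub_right h3).1 ((pow_dvd_pow _ (by omega)).trans (hdif k))
  · intro i l
    rw [← hZ]
    exact cvt _ _ ((pow_dvd_pow _ hN).trans (hclose i l))
  · intro i hi
    have hn : 1 ≤ n := by
      by_contra hn
      have : n = 0 := by omega
      subst this
      exact hdeg ⟨0, Or.inl ⟨(i, 0), (i, 1), by simp, by simp, by simp⟩⟩
    obtain ⟨l, hl⟩ := hZp i
    apply hl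
    have h1 : ((z' i l * s' (i, l) : ℤ_[p]) : ℚ_[p]) = 0 := congrFun hi l
    have h2 := coe0.1 h1
    have h3 := hclose i l
    rw [h2, sub_zero] at h3
    exact (dvd_pow_self _ (by omega)).trans h3
  · intro i
    have h1 : ∑ l, ((sg l : ℤ) : ℤ_[p]) * ((fm (c (i, l)) a₀ a₁ : ℤ) : ℤ_[p]) *
        (z' i l * s' (i, l)) ^ 2 = 0 := by
      rw [← hc' i]
      refine Finset.sum_congr rfl fun l _ => ?_
      have h2 := hs1 (i, l)
      simp only at h2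
      rw [h2]
      calc (G (i, l)).eval t' * s (i, l) ^ 2 * (z' i l * s' (i, l)) ^ 2 =
          (G (i, l)).eval t' * z' i l ^ 2 * (s (i, l) * s' (i, l)) ^ 2 := by ring
        _ = (G (i, l)).eval t' * z' i l ^ 2 := by rw [hss]; ring
    have h2 := sum_sg (fun l => ((fm (c (i, l)) a₀ a₁ : ℤ) : ℤ_[p])) (fun l => z' i l * s' (i, l))
    rw [h1] at h2
    have h3 := sub_eq_zero.1 h2.symm
    exact fincast (fun l => fm (c (i, l)) a₀ a₁) (fun l => z' i l * s' (i, l)) h3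

theorem padw_ : S_PADW := by
  intro r e p _ N n hN c hbad x z hx hz hX
  have hb1 : ¬ degen p n c := fun h => hbad (Or.inl h)
  have hb2 : ¬ degen p n (fun a => rv (c a)) := fun h => hbad (Or.inr h)
  have hle : ∀ j, ‖x j‖ ≤ 1 := fun j => (norm_le_pi_norm x j).trans hx.le
  have fin : ∀ (a₀ a₁ : ℤ), ‖x 0 - (a₀ : ℚ_[p])‖ ≤ (((p : ℝ) ^ N))⁻¹ →
      ‖x 1 - (a₁ : ℚ_[p])‖ ≤ (((p : ℝ) ^ N))⁻¹ →
      (∀ k, ¬ ((p : ℤ) ^ (8 * n + 24) ∣ fm (c k) a₀ a₁)) →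
      (∃ z' : Fin r → Fin 3 → ℚ_[p], (∀ i j, ‖z i j - z' i j‖ ≤ (((p : ℝ) ^ N))⁻¹) ∧
        (∀ i, z' i ≠ 0) ∧ ∀ i, ((fm (c (i, 0)) a₀ a₁ : ℤ) : ℚ_[p]) * z' i 0 ^ 2 +
          ((fm (c (i, 1)) a₀ a₁ : ℤ) : ℚ_[p]) * z' i 1 ^ 2 =
            ((fm (c (i, 2)) a₀ a₁ : ℤ) : ℚ_[p]) * z' i 2 ^ 2) →
      ∃ a : Fin 2 → ℤ, (∀ j, ‖x j - (a j : ℚ_[p])‖ ≤ (((p : ℝ) ^ N))⁻¹) ∧
      (∀ k, ¬ ((p : ℤ) ^ (8 * n + 24) ∣ fm (c k) (a 0) (a 1))) ∧
      ∃ z' : Fin r → Fin 3 → ℚ_[p], (∀ i j, ‖z i j - z' i j‖ ≤ (((p : ℝ) ^ N))⁻¹) ∧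
        OnX c (fun j => ((a j : ℤ) : ℚ_[p])) z' := by
    intro a₀ a₁ h1 h2 h3 h4
    obtain ⟨z', h5, h6, h7⟩ := h4
    refine ⟨![a₀, a₁], ?_, h3, z', h5, ?_, ?_⟩
    · intro j
      fin_cases j
      · exact h1
      · exact h2
    · intro k
      show fmv (c k) ((a₀ : ℤ) : ℚ_[p]) ((a₁ : ℤ) : ℚ_[p]) ≠ 0
      rw [fmv_cast]
      intro h8
      have h9 : fm (c k) a₀ a₁ = 0 := by exact_mod_cast h8
      apply h3 k
      rw [h9]
      exact dvd_zero _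
    · intro i
      refine ⟨h6 i, ?_⟩
      show fmv (c (i, 0)) ((a₀ : ℤ) : ℚ_[p]) ((a₁ : ℤ) : ℚ_[p]) * z' i 0 ^ 2 +
        fmv (c (i, 1)) ((a₀ : ℤ) : ℚ_[p]) ((a₁ : ℤ) : ℚ_[p]) * z' i 1 ^ 2 =
          fmv (c (i, 2)) ((a₀ : ℤ) : ℚ_[p]) ((a₁ : ℤ) : ℚ_[p]) * z' i 2 ^ 2
      rw [fmv_cast, fmv_cast, fmv_cast]
      exact h7 i
  by_cases hx0 : ‖x 0‖ = 1
  · obtain ⟨a₀, a₁, h1, h2, h3, h4⟩ := case1 N n hN c hb1 (x 0) (x 1) hx0 (hle 1) z hz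
      (fun i => (hX.2 i).2)
    exact fin a₀ a₁ h1 h2 h3 h4
  · have hx1 : ‖x 1‖ = 1 := by
      by_contra hx1
      have h1 : ‖x‖ < 1 := by
        rw [pi_norm_lt_iff one_pos]
        intro j
        fin_cases j
        · exact lt_of_le_of_ne (hle 0) hx0
        · exact lt_of_le_of_ne (hle 1) hx1
      rw [hx] at h1
      exact lt_irrefl _ h1
    obtain ⟨a₀, a₁, h1, h2, h3, z', h4, h5, h6⟩ := case1 N n hN (fun a => rv (c a)) hb2 (x 1) (x 0)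
      hx1 (hle 0) z hz (by
        intro i
        rw [fmv_rv, fmv_rv, fmv_rv]
        exact (hX.2 i).2)
    refine fin a₁ a₀ h2 h1 ?_ ⟨z', h4, h5, ?_⟩
    · intro k
      have := h3 k
      rwa [fm_rv] at this
    · intro i
      have := h6 i
      rwa [fm_rv, fm_rv, fm_rv] at this

end Pool.Agent.N650.DW
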